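import Mathlib
import Pool.Agent.H.MP_b9f640_co.A

namespace Pool.Agent.Results.MP_b9f640_co.Full

open SimpleGraph Pool.Agent.H.MP_b9f640_co

/-- The path `p` lies on a Hamiltonian cycle of `G`: every vertex and every edge of `p` belongs
to one Hamiltonian cycle. -/
def LiesOnHam {V : Type} [DecidableEq V] (G : SimpleGraph V) {u v : V} (p : G.Walk u v) : Prop :=
  ∃ (w : V) (c : G.Walk w w), c.IsHamiltonianCycle ∧ (∀ x ∈ p.support, x ∈ c.support) ∧
    ∀ e ∈ p.edges, e ∈ c.edges

/-- The Hamiltonian extension number: the largest `k` with `1 ≤ k ≤ |V|` such that for every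
`i` with `1 ≤ i ≤ k` every path with `i` vertices lies on a Hamiltonian cycle. -/
noncomputable def he {V : Type} [Fintype V] [DecidableEq V] (G : SimpleGraph V) : ℕ :=
  sSup {k : ℕ | 1 ≤ k ∧ k ≤ Fintype.card V ∧ ∀ i, 1 ≤ i → i ≤ k →
    ∀ (u v : V) (p : G.Walk u v), p.IsPath → p.support.length = i → LiesOnHam G p}

/-- The generalized Petersen graph `GP(n,2)`: outer vertices `(i, false)` with `i ~ i + 1`,
inner vertices `(i, true)` with `i ~ i + 2`, and spokes `(i, false) ~ (i, true)`. -/
def GP (n : ℕ) : SimpleGraph (ZMod n × Bool) :=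
  SimpleGraph.fromRel fun x y =>
    (x.2 = false ∧ y.2 = false ∧ y.1 = x.1 + 1) ∨ (x.2 = false ∧ y.2 = true ∧ y.1 = x.1) ∨
      (x.2 = true ∧ y.2 = true ∧ y.1 = x.1 + 2)

def phi (n : ℕ) (s : ZMod n) (x : W) : ZMod n × Bool := ((x.1 : ZMod n) + s, x.2)

theorem c_ne (k : ℕ) (a : ℕ) (h0 : 0 < a) (h1 : a < 10) : ((a : ℕ) : ZMod (6 * k + 10)) ≠ 0 := by
  intro h
  rw [ZMod.natCast_eq_zero_iff] at h
  have := Nat.le_of_dvd h0 h
  omega

theorem adj_out (k : ℕ) (i : ZMod (6 * k + 10)) (y : ZMod (6 * k + 10) × Bool) :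
    (GP (6 * k + 10)).Adj (i, false) y ↔
      y = (i + 1, false) ∨ y = (i - 1, false) ∨ y = (i, true) := by
  have h1 := c_ne k 1 (by omega) (by omega)
  obtain ⟨j, b⟩ := y
  simp only [GP, fromRel_adj]
  push_cast at h1
  cases b
  · simp only [ne_eq, Prod.mk.injEq, and_true, true_and, Bool.false_eq_true, false_and, or_false,
      and_false]
    constructor
    · rintro ⟨_, h | h⟩
      · exact Or.inl h
      · exact Or.inr (by rw [h]; ring)
    · rintro (h | h)
      · exact ⟨fun e => h1 (by linear_combination -e - h), Or.inl h⟩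
      · exact ⟨fun e => h1 (by linear_combination h + e), Or.inr (by rw [h]; ring)⟩
  · simp

theorem adj_in (k : ℕ) (i : ZMod (6 * k + 10)) (y : ZMod (6 * k + 10) × Bool) :
    (GP (6 * k + 10)).Adj (i, true) y ↔
      y = (i + 2, true) ∨ y = (i - 2, true) ∨ y = (i, false) := by
  have h1 := c_ne k 2 (by omega) (by omega)
  obtain ⟨j, b⟩ := y
  simp only [GP, fromRel_adj]
  push_cast at h1
  cases b
  · simp [eq_comm]
  · simp only [ne_eq, Prod.mk.injEq, and_true, true_and, Bool.true_eq_false, false_and, or_false,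
      and_false, false_or]
    constructor
    · rintro ⟨_, h | h⟩
      · exact Or.inl h
      · exact Or.inr (by rw [h]; ring)
    · rintro (h | h)
      · exact ⟨fun e => h1 (by linear_combination -e - h), Or.inl h⟩
      · exact ⟨fun e => h1 (by linear_combination h + e), Or.inr (by rw [h]; ring)⟩

theorem cubic (k : ℕ) (v : ZMod (6 * k + 10) × Bool) :
    ((GP (6 * k + 10)).neighborSet v).ncard = 3 := by
  have h2 := c_ne k 2 (by omega) (by omega)
  have h4 := c_ne k 4 (by omega) (by omega)
  push_cast at h2 h4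
  obtain ⟨i, b⟩ := v
  rw [Set.ncard_eq_three]
  cases b
  · refine ⟨(i + 1, false), (i - 1, false), (i, true), ?_, by simp, by simp, ?_⟩
    · intro e
      simp only [Prod.mk.injEq, and_true] at e
      exact h2 (by linear_combination e)
    · ext y; simp [adj_out]
  · refine ⟨(i + 2, true), (i - 2, true), (i, false), ?_, by simp, by simp, ?_⟩
    · intro e
      simp only [Prod.mk.injEq, and_true] at e
      exact h4 (by linear_combination e)
    · ext y; simp [adj_in]

theorem phi_inj (n : ℕ) (s : ZMod n) (x y : W) (hx : x.1 < n) (hy : y.1 < n)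
    (h : phi n s x = phi n s y) : x = y := by
  simp only [phi, Prod.mk.injEq, add_left_inj] at h
  have := (ZMod.natCast_eq_natCast_iff' _ _ _).1 h.1
  rw [Nat.mod_eq_of_lt hx, Nat.mod_eq_of_lt hy] at this
  exact Prod.ext this h.2

theorem phi_adj (k : ℕ) (s : ZMod (6 * k + 10)) (x y : W) (h : adjB x y = true) :
    (GP (6 * k + 10)).Adj (phi _ s x) (phi _ s y) := by
  obtain ⟨i, b⟩ := x
  obtain ⟨j, c⟩ := y
  cases b <;> cases c <;> simp [adjB] at h <;> simp only [phi, adj_out, adj_in, Prod.mk.injEq]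
  · rcases h with h | h
    · left; subst h; push_cast; exact ⟨by ring, trivial⟩
    · right; left; subst h; push_cast; exact ⟨by ring, trivial⟩
  · right; right; subst h; exact ⟨rfl, trivial⟩
  · right; right; subst h; exact ⟨rfl, trivial⟩
  · rcases h with h | h
    · left; subst h; push_cast; exact ⟨by ring, trivial⟩
    · right; left; subst h; push_cast; exact ⟨by ring, trivial⟩

theorem lift1 (k : ℕ) (s : ZMod (6 * k + 10)) (x : W) (hx : 2 ≤ x.1)
    (y : ZMod (6 * k + 10) × Bool) (h : (GP (6 * k + 10)).Adj (phi _ s x) y) :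
    ∃ z ∈ nb x, phi _ s z = y := by
  obtain ⟨i, b⟩ := x
  obtain ⟨i, rfl⟩ : ∃ i', i = i' + 2 := ⟨i - 2, by simp at hx; omega⟩
  cases b
  · simp only [phi, adj_out] at h
    rcases h with h | h | h
    · exact ⟨(i + 2 + 1, false), by simp [nb], by rw [h]; simp [phi]; ring⟩
    · exact ⟨(i + 1, false), by simp [nb], by rw [h]; simp [phi]; ring⟩
    · exact ⟨(i + 2, true), by simp [nb], by rw [h]; simp [phi]⟩
  · simp only [phi, adj_in] at h
    rcases h with h | h | h
    · exact ⟨(i + 2 + 2, true), by simp [nb], by rw [h]; simp [phi]; ring⟩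
    · exact ⟨(i, true), by simp [nb], by rw [h]; simp [phi]; ring⟩
    · exact ⟨(i + 2, false), by simp [nb], by rw [h]; simp [phi]⟩

theorem lift (k : ℕ) {u v : ZMod (6 * k + 10) × Bool} (p : (GP (6 * k + 10)).Walk u v) :
    p.length < 5 → ∃ w ∈ ext p.length, w.map (phi _ (v.1 - 16)) = p.support := by
  induction p with
  | @nil u =>
    intro _
    obtain ⟨i, b⟩ := u
    refine ⟨[(16, b)], by cases b <;> simp [ext], ?_⟩
    simp [phi]
  | @cons a b c h q ih =>
    intro hl
    rw [Walk.length_cons] at hl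
    obtain ⟨w, hw, hs⟩ := ih (by omega)
    cases w with
    | nil => exact absurd hs.symm q.support_ne_nil
    | cons x t =>
      have hx : phi _ (c.1 - 16) x = b := by
        have := q.cons_tail_support
        rw [← hs] at this
        simp only [List.map_cons, List.tail_cons, List.cons.injEq, and_true] at this
        exact this.symm
      have h2 := ext_col q.length (List.mem_range.2 (by omega)) _ hw x (by simp)
      obtain ⟨z, hz, e⟩ := lift1 k _ x h2 a (by rw [hx]; exact h.symm)
      refine ⟨z :: x :: t, ?_, ?_⟩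
      · rw [Walk.length_cons, ext, List.mem_flatMap]
        exact ⟨x :: t, hw, List.mem_map.2 ⟨z, hz, rfl⟩⟩
      · rw [Walk.support_cons, ← hs, List.map_cons, e]

theorem ham (k : ℕ) (s : ZMod (6 * k + 10)) (L0 : List W) (h : L0 ∈ bases) :
    ∃ w, ∃ c : (GP (6 * k + 10)).Walk w w, c.IsHamiltonianCycle ∧
      ∀ l1 l2 x y, L0.map (phi _ s) = l1 ++ x :: y :: l2 → s(x, y) ∈ c.edges := by
  obtain ⟨L, h1, h2, h3, h4, h5, h6⟩ := good_all k L0 h
  obtain ⟨w, c, hc, he⟩ := ham_of_list (G := GP (6 * k + 10)) (L.map (phi _ s))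
    (h1.map_on fun x hx y hy e => phi_inj _ s x y (h2 x hx) (h2 y hy) e)
    (by simp [h3]; ring) (by simp [h3]; omega)
    (by rw [List.isChain_map]; exact h4.imp fun x y e => phi_adj k s x y e) (by
      intro a b ha hb
      rw [List.head?_map] at ha
      rw [List.getLast?_map] at hb
      rcases h6 with ⟨e1, e2⟩ | ⟨e1, e2⟩
      · rw [e1] at ha; rw [e2] at hb
        simp only [Option.map_some, Option.some.injEq] at ha hb
        rw [← ha, ← hb]
        simp only [phi, adj_out]
        left
        have : ((6 * k + 10 : ℕ) : ZMod (6 * k + 10)) = 0 := ZMod.natCast_self _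
        rw [show 6 * k + 10 - 1 = 6 * k + 9 by omega]
        push_cast at this ⊢
        simp only [Prod.mk.injEq, and_true]
        linear_combination -this
      · rw [e1] at ha; rw [e2] at hb
        simp only [Option.map_some, Option.some.injEq] at ha hb
        rw [← ha, ← hb]
        simp only [phi, adj_in]
        simp)
  refine ⟨w, c, hc, ?_⟩
  intro l1 l2 x y e
  obtain ⟨a, b, hab⟩ := h5
  refine he (a.map (phi _ s) ++ l1) (l2 ++ b.map (phi _ s)) x y ?_
  rw [← hab, List.map_append, List.map_append, e]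
  simp

theorem five (k : ℕ) {u v : ZMod (6 * k + 10) × Bool} (p : (GP (6 * k + 10)).Walk u v)
    (hp : p.IsPath) (hl : p.length < 5) : LiesOnHam (GP (6 * k + 10)) p := by
  obtain ⟨w, hw, hs⟩ := lift k p hl
  have hn : w.Nodup := by
    have := hp.support_nodup
    rw [← hs] at this
    exact this.of_map _
  obtain ⟨L0, hL, d, _, hd⟩ := cover p.length (List.mem_range.2 hl) w hw hn
  obtain ⟨z, c, hc, he⟩ := ham k (v.1 - 16 + d) L0 hL
  have hm : (L0.map (sh d)).map (phi _ (v.1 - 16)) = L0.map (phi _ (v.1 - 16 + (d : ZMod (6 * k + 10)))) := by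
    rw [List.map_map]
    congr 1
    funext x
    simp [phi, sh]; ring
  refine ⟨z, c, hc, fun x _ => hc.mem_support x, ?_⟩
  intro e hedge
  obtain ⟨l1, l2, x, y, rfl, h2⟩ := infix_of_edge p e hedge
  rcases hd with ⟨a, b, hab⟩ | ⟨a, b, hab⟩
  · refine he (a.map (phi _ (v.1 - 16)) ++ l1) (l2 ++ b.map (phi _ (v.1 - 16))) x y ?_
    rw [← hm, ← hab, List.map_append, List.map_append, hs, h2]
    simp
  · rw [Sym2.eq_swap]
    refine he (a.map (phi _ (v.1 - 16)) ++ l2.reverse) (l1.reverse ++ b.map (phi _ (v.1 - 16))) y x ?_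
    rw [← hm, ← hab, List.map_append, List.map_append, List.map_reverse, hs, h2]
    simp

theorem three_nb {V : Type} {S : Set V} (h : S.ncard = 2) {a b c : V} (ha : a ∈ S) (hb : b ∈ S)
    (hc : c ∈ S) (h1 : a ≠ b) (h2 : a ≠ c) (h3 : b ≠ c) : False := by
  obtain ⟨x, y, _, rfl⟩ := Set.ncard_eq_two.1 h
  simp only [Set.mem_insert_iff, Set.mem_singleton_iff] at ha hb hc
  rcases ha with rfl | rfl <;> rcases hb with rfl | rfl <;> rcases hc with rfl | rfl <;> simp_all

theorem six (k : ℕ) : ∃ (u v : ZMod (6 * k + 10) × Bool) (p : (GP (6 * k + 10)).Walk u v),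
    p.IsPath ∧ p.support.length = 6 ∧ ¬ LiesOnHam (GP (6 * k + 10)) p := by
  have inj : ∀ x y : W, x.1 < 10 → y.1 < 10 → x ≠ y → phi (6 * k + 10) 0 x ≠ phi _ 0 y :=
    fun x y hx hy hxy e => hxy (phi_inj _ 0 x y (by omega) (by omega) e)
  obtain ⟨b, p, hp⟩ := walk_of_chain (G := GP (6 * k + 10))
    ([(2, false), (3, false), (4, false), (4, true), (6, true)].map (phi _ 0)) (phi _ 0 (1, false))
    (by
      rw [← List.map_cons, List.isChain_map]
      have : List.IsChain (fun x y => adjB x y = true)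
        [(1, false), (2, false), (3, false), (4, false), (4, true), (6, true)] := by decide
      exact this.imp fun x y e => phi_adj k 0 x y e)
  refine ⟨_, b, p, ?_, by rw [hp]; rfl, ?_⟩
  · rw [Walk.isPath_def, hp, ← List.map_cons]
    refine List.Nodup.map_on ?_ (by decide)
    intro x hx y hy e
    have h : ∀ z ∈ [((1 : ℕ), false), (2, false), (3, false), (4, false), (4, true), (6, true)],
      z.1 < 10 := by decide
    exact phi_inj _ 0 x y (by have := h x hx; omega) (by have := h y hy; omega) e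
  · rintro ⟨w, c, hc, _, he⟩
    have two := fun x => hc.isCycle.ncard_neighborSet_toSubgraph_eq_two (hc.mem_support x)
    have e1 := he _ (edge_of_infix p [] _ _ _ hp)
    have e2 := he _ (edge_of_infix p [phi _ 0 (1, false)] _ _ _ hp)
    have e4 := he _ (edge_of_infix p [phi _ 0 (1, false), phi _ 0 (2, false), phi _ 0 (3, false)]
      _ _ _ hp)
    have e5 := he _ (edge_of_infix p [phi _ 0 (1, false), phi _ 0 (2, false), phi _ 0 (3, false),
      phi _ 0 (4, false)] _ _ _ hp)
    rw [← Walk.adj_toSubgraph_iff_mem_edges] at e1 e2 e4 e5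
    have n1 : ¬ c.toSubgraph.Adj (phi _ 0 (2, true)) (phi _ 0 (2, false)) := fun h =>
      three_nb (two (phi _ 0 (2, false))) e1.symm e2 h.symm (inj _ _ (by decide) (by decide) (by decide))
        (inj _ _ (by decide) (by decide) (by decide)) (inj _ _ (by decide) (by decide) (by decide))
    have n2 : ¬ c.toSubgraph.Adj (phi _ 0 (2, true)) (phi _ 0 (4, true)) := fun h =>
      three_nb (two (phi _ 0 (4, true))) e4.symm e5 h.symm (inj _ _ (by decide) (by decide) (by decide))
        (inj _ _ (by decide) (by decide) (by decide)) (inj _ _ (by decide) (by decide) (by decide))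
    have only : ∀ y, c.toSubgraph.Adj (phi _ 0 (2, true)) y → y = phi _ 0 (0, true) := by
      intro y hy
      obtain ⟨z, hz, e⟩ := lift1 k 0 (2, true) (by decide) y hy.adj_sub
      simp only [nb, if_true, List.mem_cons, List.not_mem_nil, or_false] at hz
      rcases hz with rfl | rfl | rfl
      · exact absurd (e ▸ hy) n2
      · exact e.symm
      · exact absurd (e ▸ hy) n1
    obtain ⟨x, y, hxy, hs⟩ := Set.ncard_eq_two.1 (two (phi _ 0 (2, true)))
    have hx : x ∈ c.toSubgraph.neighborSet (phi _ 0 (2, true)) := by rw [hs]; simp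
    have hy : y ∈ c.toSubgraph.neighborSet (phi _ 0 (2, true)) := by rw [hs]; simp
    exact hxy ((only x hx).trans (only y hy).symm)

theorem result :
    (∀ k : ℕ, (∀ v, ((GP (6 * k + 10)).neighborSet v).ncard = 3) ∧
      (GP (6 * k + 10)).IsHamiltonian ∧ he (GP (6 * k + 10)) = 5) ∧
    ∀ k l : ℕ, k ≠ l → IsEmpty (GP (6 * k + 10) ≃g GP (6 * l + 10)) := by
  refine ⟨fun k => ⟨cubic k, ?_, ?_⟩, ?_⟩
  · intro _
    obtain ⟨w, c, hc, _⟩ := ham k 0 _ (List.mem_cons_self)
    exact ⟨w, c, hc⟩
  · apply IsGreatest.csSup_eq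
    refine ⟨⟨by omega, by simp; omega, ?_⟩, ?_⟩
    · intro i _ hi u v p hp hl
      rw [p.length_support] at hl
      exact five k p hp (by omega)
    · rintro m ⟨_, _, hm⟩
      by_contra hlt
      obtain ⟨u, v, p, hp, hl, hn⟩ := six k
      exact hn (hm 6 (by omega) (by omega) u v p hp hl)
  · intro k l hkl
    refine ⟨fun f => hkl ?_⟩
    have := Fintype.card_congr f.toEquiv
    simp at this
    omega

end Pool.Agent.Results.MP_b9f640_co.Full
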